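import Pool.Agent.W893.SY.Net

/-! The steps of the project SY (circuits that are symmetric under a product of small alternating
groups). -/

namespace Pool.Agent.W893.SY

open Finset

/-! ## The steps -/

/-- EXP: sparse random systems expand. -/
def S_exp : Prop :=
  ∀ k D : ℕ, 2 ≤ k → 1 ≤ D → ∃ K : ℕ, 0 < K ∧ ∀ N M r : ℕ, 0 < N → M ≤ D * N → K * r ≤ N →
    ∃ ν : Fin M → Fin k → Fin N, ∀ Q : Finset (Fin M), Q.Nonempty → Q.card ≤ r →
      (5 * k - 7) * Q.card < 5 * (Q.biUnion fun c => univ.image (ν c)).card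

/-- UP: making a circuit symmetric by taking copies. -/
def S_up : Prop :=
  ∀ (I G : Type) [Group G] [Fintype G] (act : G → I → I) (s : ℕ) (C : Net I Bool s),
    act 1 = id → (∀ a b, act (a * b) = act a ∘ act b) → C.AndOr →
    ∃ C' : Net I Bool (Fintype.card G * s + 1), C'.AndOr ∧ (∀ a, ∃ α, C'.IsAut (act a) α) ∧
      ∀ x, (C'.val x C'.out = true ↔ ∃ a, C.val (x ∘ act a) C.out = true)

/-- SUP: in a circuit with fewer than `2 ^ (κ + 1)` gates that is symmetric under `P ^ m`, where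
`P` is a perfect group, for every gate there is a set `X` of at most `2 * κ` factors such that all
elements of the other factors have an automorphism over them that fixes the gate. -/
def S_sup : Prop :=
  ∀ (I R P : Type) [Group P], commutator P = ⊤ → ∀ (m s κ : ℕ) (C : Net I R s)
    (act : (Fin m → P) → I → I), act 1 = id → (∀ a b, act (a * b) = act a ∘ act b) →
    (∀ a, ∃ α, C.IsAut (act a) α) → s < 2 ^ (κ + 1) →
    ∀ g : Fin s, ∃ X : Finset (Fin m), X.card ≤ 2 * κ ∧
      ∀ a : Fin m → P, (∀ i ∈ X, a i = 1) → ∃ α, C.IsAut (act a) α ∧ α g = g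

/-- The linear form `∑ h c i * x (i, ν c i)` in the variables `Fin k × Fin N`. -/
def lf {k N M : ℕ} (ν : Fin M → Fin k → Fin N) (h : Fin M → Fin k → ZMod 2)
    (p : Fin k × Fin N) : ZMod 2 :=
  ∑ c, if ν c p.1 = p.2 then h c p.1 else 0

/-- The assignment `a` satisfies all equations with variables in `V` that are sums of at most `r`
equations `∑ i, h i * x (i, ν c i) = ∑ i, h i * β c i` with `h ∈ D`. -/
def GoodOn {k N M : ℕ} (ν : Fin M → Fin k → Fin N) (D : Set (Fin k → ZMod 2))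
    (β : Fin M → Fin k → ZMod 2) (r : ℕ) (V : Finset (Fin k × Fin N))
    (a : Fin k × Fin N → ZMod 2) : Prop :=
  ∀ h : Fin M → Fin k → ZMod 2, (∀ c, h c ∈ D) → (univ.filter fun c => h c ≠ 0).card ≤ r →
    (∀ p, p ∉ V → lf ν h p = 0) → ∑ p, lf ν h p * a p = ∑ c, ∑ i, h c i * β c i

/-- LOC: good partial assignments can be extended. -/
def S_loc : Prop :=
  ∀ (k N M r : ℕ) (ν : Fin M → Fin k → Fin N) (D : AddSubgroup (Fin k → ZMod 2))
    (β : Fin M → Fin k → ZMod 2), 3 ≤ k →
    (∀ Q : Finset (Fin M), Q.Nonempty → Q.card ≤ r →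
      (5 * k - 7) * Q.card < 5 * (Q.biUnion fun c => univ.image (ν c)).card) →
    (∀ h ∈ D, h ≠ 0 → 3 ≤ (univ.filter fun i => h i ≠ 0).card) →
    (∀ a, GoodOn ν D β r ∅ a) ∧
    (∀ V a p, GoodOn ν D β r V a → 10 * (V.card + 1) ≤ r →
      ∃ a', GoodOn ν D β r (insert p V) a' ∧ ∀ q ∈ V, a' q = a q)

end Pool.Agent.W893.SY
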