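import Pool.Agent.W893.SY.Block

/-! The pair of graphs. -/

namespace Pool.Agent.W893.SY

open Finset

/-- the even vectors of length three, numbered by `0, 1, 2, 3` (and a dummy `4`) -/
def vec : Fin 5 → Fin 3 → ZMod 2 :=
  ![![0, 0, 0], ![1, 0, 1], ![0, 1, 1], ![1, 1, 0], ![0, 0, 0]]

/-- translation by `(s, t, s + t)` -/
def trn (s t : ZMod 2) : Equiv.Perm (Fin 5) :=
  if s = 0 then (if t = 0 then 1 else Equiv.swap 0 2 * Equiv.swap 1 3)
  else (if t = 0 then Equiv.swap 0 1 * Equiv.swap 2 3 else Equiv.swap 0 3 * Equiv.swap 1 2)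

theorem trn_mem (s t : ZMod 2) : trn s t ∈ alternatingGroup (Fin 5) := by
  rw [Equiv.Perm.mem_alternatingGroup]
  revert s t
  decide

/-- translation, as an element of the alternating group -/
def tr (s t : ZMod 2) : A5 := ⟨trn s t, trn_mem s t⟩

theorem trn_four : ∀ (s t : ZMod 2) (k : Fin 5), trn s t k = 4 ↔ k = 4 := by
  decide

theorem vec_trn : ∀ (s t : ZMod 2) (k : Fin 5), k ≠ 4 → ∀ i : Fin 3,
    vec (trn s t k) i = vec k i + ![s, t, s + t] i := by
  decide

theorem sum_vec : ∀ k : Fin 5, vec k 0 + vec k 1 + vec k 2 = 0 := by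
  decide

theorem zmod2_add_self (a : ZMod 2) : a + a = 0 := by
  revert a; decide

section

variable {M N n : ℕ} (ν : Fin M → Fin 3 → Fin N) (β : Fin M → Fin 3 → ZMod 2)
  (e : Fin M × Fin 5 ↪ Fin n) (Un : Finset (Fin n))

/-- adjacency of block vertices -/
def cf (p p' : Fin M × Fin 5) : Prop :=
  p.1 ≠ p'.1 ∧ p.2 ≠ 4 ∧ p'.2 ≠ 4 ∧
    ∀ i, ν p.1 i = ν p'.1 i → vec p.2 i + β p.1 i = vec p'.2 i + β p'.1 i

theorem cf_symm {p p' : Fin M × Fin 5} (h : cf ν β p p') : cf ν β p' p :=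
  ⟨h.1.symm, h.2.2.1, h.2.1, fun i hi => (h.2.2.2 i hi.symm).symm⟩

/-- the graph -/
def gr : SimpleGraph (Fin n) where
  Adj z z' := z ≠ z' ∧ (z ∈ Un ∨ z' ∈ Un ∨ ∃ p p', z = e p ∧ z' = e p' ∧ cf ν β p p')
  symm := ⟨by
    rintro z z' ⟨h1, h2⟩
    refine ⟨h1.symm, ?_⟩
    rcases h2 with h | h | ⟨p, p', h3, h4, h5⟩
    · exact Or.inr (Or.inl h)
    · exact Or.inl h
    · exact Or.inr (Or.inr ⟨p', p, h4, h3, cf_symm ν β h5⟩)⟩
  loopless := ⟨fun z h => h.1 rfl⟩

theorem cf_shift (a : Fin 3 × Fin N → ZMod 2) (δ : Fin M → A5) {c c' : Fin M}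
    (hc : δ c = tr (a (0, ν c 0) + β c 0) (a (1, ν c 1) + β c 1))
    (hc' : δ c' = tr (a (0, ν c' 0) + β c' 0) (a (1, ν c' 1) + β c' 1))
    (hs : ∑ i, a (i, ν c i) = ∑ i, β c i) (hs' : ∑ i, a (i, ν c' i) = ∑ i, β c' i)
    (k k' : Fin 5) :
    cf ν 0 (c, k) (c', k') ↔ cf ν β (c, (δ c).1 k) (c', (δ c').1 k') := by
  have h3 : ∀ c, ∑ i, a (i, ν c i) = ∑ i, β c i →
      ∀ i, ![a (0, ν c 0) + β c 0, a (1, ν c 1) + β c 1,
        a (0, ν c 0) + β c 0 + (a (1, ν c 1) + β c 1)] i = a (i, ν c i) + β c i := by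
    intro c hs i
    rw [Fin.sum_univ_three, Fin.sum_univ_three] at hs
    fin_cases i
    · rfl
    · rfl
    · show a (0, ν c 0) + β c 0 + (a (1, ν c 1) + β c 1) = a (2, ν c 2) + β c 2
      have e1 : a (2, ν c 2) = β c 0 + β c 1 + β c 2 + (a (0, ν c 0) + a (1, ν c 1)) := by
        rw [← hs]
        have := zmod2_add_self (a (0, ν c 0))
        have h2 := zmod2_add_self (a (1, ν c 1))
        linear_combination - this - h2
      rw [e1]
      have := zmod2_add_self (β c 2)
      linear_combination - this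
  have e1 : ∀ k, k ≠ 4 → ∀ i, vec ((δ c).1 k) i + β c i = vec k i + a (i, ν c i) := by
    intro k hk i
    rw [hc]
    show vec (trn _ _ k) i + β c i = _
    rw [vec_trn _ _ k hk i, h3 c hs i]
    have := zmod2_add_self (β c i)
    linear_combination this
  have e2 : ∀ k, k ≠ 4 → ∀ i, vec ((δ c').1 k) i + β c' i = vec k i + a (i, ν c' i) := by
    intro k hk i
    rw [hc']
    show vec (trn _ _ k) i + β c' i = _
    rw [vec_trn _ _ k hk i, h3 c' hs' i]
    have := zmod2_add_self (β c' i)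
    linear_combination this
  have f1 : (δ c).1 k = 4 ↔ k = 4 := by
    rw [hc]; exact trn_four _ _ k
  have f2 : (δ c').1 k' = 4 ↔ k' = 4 := by
    rw [hc']; exact trn_four _ _ k'
  unfold cf
  simp only [ne_eq, f1, f2, Pi.zero_apply, add_zero]
  constructor
  · rintro ⟨h1, h2, h4, h5⟩
    refine ⟨h1, h2, h4, fun i hi => ?_⟩
    rw [e1 k h2 i, e2 k' h4 i, h5 i hi, hi]
  · rintro ⟨h1, h2, h4, h5⟩
    refine ⟨h1, h2, h4, fun i hi => ?_⟩
    have := h5 i hi
    rw [e1 k h2 i, e2 k' h4 i, hi] at this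
    exact add_right_cancel this

variable {e Un}

theorem gr_shift (hUn : ∀ z ∈ Un, z ∉ Set.range e) (a : Fin 3 × Fin N → ZMod 2) (δ : Fin M → A5)
    (X : Finset (Fin M))
    (hδ : ∀ c ∈ X, δ c = tr (a (0, ν c 0) + β c 0) (a (1, ν c 1) + β c 1))
    (hs : ∀ c ∈ X, ∑ i, a (i, ν c i) = ∑ i, β c i) (z z' : Fin n)
    (hz : ∀ c k, z = e (c, k) → c ∈ X) (hz' : ∀ c k, z' = e (c, k) → c ∈ X) :
    (gr ν 0 e Un).Adj z z' ↔ (gr ν β e Un).Adj
      (blockPerm e (fun i => (δ i : Equiv.Perm (Fin 5))) z)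
      (blockPerm e (fun i => (δ i : Equiv.Perm (Fin 5))) z') := by
  set σ := blockPerm e (fun i => (δ i : Equiv.Perm (Fin 5))) with hσ
  have hU : ∀ z, σ z ∈ Un ↔ z ∈ Un := by
    intro z
    by_cases h : z ∈ Set.range e
    · obtain ⟨⟨c, k⟩, rfl⟩ := h
      rw [hσ, blockPerm_apply]
      constructor
      · intro h; exact absurd ⟨_, rfl⟩ (hUn _ h)
      · intro h; exact absurd ⟨_, rfl⟩ (hUn _ h)
    · rw [hσ, blockPerm_of_notMem e _ h]
  unfold gr
  simp only [ne_eq, EmbeddingLike.apply_eq_iff_eq, hU]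
  apply and_congr_right
  intro _
  apply or_congr_right
  apply or_congr_right
  constructor
  · rintro ⟨⟨c, k⟩, ⟨c', k'⟩, rfl, rfl, h⟩
    refine ⟨(c, (δ c).1 k), (c', (δ c').1 k'), ?_, ?_, ?_⟩
    · rw [hσ, blockPerm_apply]
    · rw [hσ, blockPerm_apply]
    · exact (cf_shift ν β a δ (hδ c (hz c k rfl)) (hδ c' (hz' c' k' rfl)) (hs c (hz c k rfl))
        (hs c' (hz' c' k' rfl)) k k').1 h
  · rintro ⟨⟨c, k⟩, ⟨c', k'⟩, h1, h2, h⟩
    have g : ∀ (z : Fin n) (c : Fin M) (k : Fin 5), σ z = e (c, k) →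
        z = e (c, (δ c).1.symm k) := by
      intro z c k h1
      apply σ.injective
      rw [h1, hσ, blockPerm_apply]
      simp
    have g1 := g z c k h1
    have g2 := g z' c' k' h2
    refine ⟨(c, (δ c).1.symm k), (c', (δ c').1.symm k'), g1, g2, ?_⟩
    rw [cf_shift ν β a δ (hδ c (hz c _ g1)) (hδ c' (hz' c' _ g2)) (hs c (hz c _ g1))
        (hs c' (hz' c' _ g2))]
    simpa using h

/-- The first graph has a clique with one vertex in every block. -/
theorem clique_gr (hUn : ∀ z ∈ Un, z ∉ Set.range e) :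
    ∃ S : Finset (Fin n), (gr ν 0 e Un).IsNClique (M + Un.card) S := by
  classical
  refine ⟨(univ.image fun c : Fin M => e (c, 0)) ∪ Un, ?_⟩
  rw [SimpleGraph.isNClique_iff]
  constructor
  · rw [SimpleGraph.isClique_iff]
    intro z hz z' hz' hne
    simp only [coe_union, coe_image, coe_univ, Set.image_univ, Set.mem_union, Set.mem_range,
      mem_coe] at hz hz'
    refine ⟨hne, ?_⟩
    rcases hz with ⟨c, rfl⟩ | hz
    · rcases hz' with ⟨c', rfl⟩ | hz'
      · refine Or.inr (Or.inr ⟨(c, 0), (c', 0), rfl, rfl, ?_,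
          show (0 : Fin 5) ≠ 4 by decide, show (0 : Fin 5) ≠ 4 by decide, ?_⟩)
        · rintro h
          apply hne
          simp only at h
          rw [h]
        · intro i _
          rfl
      · exact Or.inr (Or.inl hz')
    · exact Or.inl hz
  · rw [card_union_of_disjoint, card_image_of_injective, card_univ, Fintype.card_fin]
    · intro c c' h
      have := e.injective h
      rw [Prod.mk.injEq] at this
      exact this.1
    · rw [disjoint_left]
      intro z hz hz'
      rw [mem_image] at hz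
      obtain ⟨c, _, rfl⟩ := hz
      exact hUn _ hz' ⟨_, rfl⟩

/-- The second graph has no such clique if the system is not solvable. -/
theorem no_clique_gr (hM : 2 ≤ M)
    (hun : ∀ a : Fin 3 × Fin N → ZMod 2, ∃ c, ∑ i, a (i, ν c i) ≠ ∑ i, β c i)
    (S : Finset (Fin n)) : ¬ (gr ν β e Un).IsNClique (M + Un.card) S := by
  classical
  intro hS
  rw [SimpleGraph.isNClique_iff, SimpleGraph.isClique_iff] at hS
  obtain ⟨hcl, hcard⟩ := hS
  set S' := S \ Un with hS'
  have hS'c : M ≤ S'.card := by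
    have := le_card_sdiff Un S
    rw [hS']
    omega
  have hadj : ∀ z ∈ S', ∀ z' ∈ S', z ≠ z' → ∃ p p', z = e p ∧ z' = e p' ∧ cf ν β p p' := by
    intro z hz z' hz' hne
    rw [hS', mem_sdiff] at hz hz'
    have := (hcl (mem_coe.2 hz.1) (mem_coe.2 hz'.1) hne).2
    rcases this with h | h | h
    · exact absurd h hz.2
    · exact absurd h hz'.2
    · exact h
  have hrep : ∀ z ∈ S', ∃ p : Fin M × Fin 5, z = e p ∧ p.2 ≠ 4 := by
    intro z hz
    obtain ⟨z', hz', hne⟩ := exists_mem_ne (s := S') (by omega) z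
    obtain ⟨p, p', h1, _, h3⟩ := hadj z hz z' hz' hne.symm
    exact ⟨p, h1, h3.2.1⟩
  have : Nonempty (Fin M × Fin 5) := ⟨(⟨0, by omega⟩, 0)⟩
  choose! f hf hf4 using hrep
  have hinj : Set.InjOn (fun z => (f z).1) (S' : Set (Fin n)) := by
    intro z hz z' hz' h
    by_contra hne
    obtain ⟨p, p', h1, h2, h3⟩ := hadj z hz z' hz' hne
    have e1 : p = f z := e.injective (h1.symm.trans (hf z hz))
    have e2 : p' = f z' := e.injective (h2.symm.trans (hf z' hz'))
    apply h3.1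
    rw [e1, e2]
    exact h
  have hsurj : ∀ c : Fin M, ∃ z ∈ S', (f z).1 = c := by
    have h1 : S'.image (fun z => (f z).1) = univ := by
      apply eq_univ_of_card
      rw [card_image_of_injOn hinj, Fintype.card_fin]
      apply le_antisymm _ hS'c
      rw [← card_image_of_injOn hinj]
      calc _ ≤ (univ : Finset (Fin M)).card := card_le_card (subset_univ _)
        _ = M := by simp
    intro c
    have h2 : c ∈ S'.image (fun z => (f z).1) := by rw [h1]; exact mem_univ _
    rw [mem_image] at h2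
    exact h2
  choose z hz hzc using hsurj
  have hcons : ∀ c c' : Fin M, ∀ i, ν c i = ν c' i →
      vec (f (z c)).2 i + β c i = vec (f (z c')).2 i + β c' i := by
    intro c c' i hi
    by_cases hcc : c = c'
    · subst hcc; rfl
    · have hne : z c ≠ z c' := by
        intro h
        apply hcc
        rw [← hzc c, ← hzc c', h]
      obtain ⟨p, p', h1, h2, h3⟩ := hadj _ (hz c) _ (hz c') hne
      have e1 : p = f (z c) := e.injective (h1.symm.trans (hf _ (hz c)))
      have e2 : p' = f (z c') := e.injective (h2.symm.trans (hf _ (hz c')))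
      have h4 := h3.2.2.2 i (by rw [e1, e2, hzc, hzc]; exact hi)
      rw [e1, e2, hzc, hzc] at h4
      exact h4
  obtain ⟨c, hc⟩ := hun (fun p => if h : ∃ c, ν c p.1 = p.2 then
    vec (f (z h.choose)).2 p.1 + β h.choose p.1 else 0)
  apply hc
  have h5 : ∀ i, (if h : ∃ c', ν c' i = ν c i then
      vec (f (z h.choose)).2 i + β h.choose i else 0) = vec (f (z c)).2 i + β c i := by
    intro i
    have h : ∃ c', ν c' i = ν c i := ⟨c, rfl⟩
    rw [dif_pos h]
    exact hcons _ _ i h.choose_spec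
  simp only [h5]
  rw [sum_add_distrib]
  have h6 := sum_vec (f (z c)).2
  rw [Fin.sum_univ_three, h6, zero_add]

end

end Pool.Agent.W893.SY
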