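import Pool.Agent.W893.SY.Core

/-! Block permutations and the groups acting on literals. -/

namespace Pool.Agent.W893.SY

open Finset

/-- the group of even permutations of five points -/
abbrev A5 : Type := alternatingGroup (Fin 5)

theorem blockPerm_apply {m n : ℕ} (e : Fin m × Fin 5 ↪ Fin n) (γ : Fin m → Equiv.Perm (Fin 5))
    (c : Fin m) (k : Fin 5) : blockPerm e γ (e (c, k)) = e (c, γ c k) := by
  unfold blockPerm
  rw [Equiv.Perm.viaEmbedding_apply]
  rfl

theorem blockPerm_of_notMem {m n : ℕ} (e : Fin m × Fin 5 ↪ Fin n)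
    (γ : Fin m → Equiv.Perm (Fin 5)) {z : Fin n} (hz : z ∉ Set.range e) :
    blockPerm e γ z = z := by
  unfold blockPerm
  exact Equiv.Perm.viaEmbedding_apply_of_notMem _ _ _ hz

theorem blockPerm_mul {m n : ℕ} (e : Fin m × Fin 5 ↪ Fin n) (γ γ' : Fin m → Equiv.Perm (Fin 5)) :
    blockPerm e (γ * γ') = blockPerm e γ * blockPerm e γ' := by
  ext z
  congr 1
  rw [Equiv.Perm.mul_apply]
  by_cases hz : z ∈ Set.range e
  · obtain ⟨⟨c, k⟩, rfl⟩ := hz
    rw [blockPerm_apply, blockPerm_apply, blockPerm_apply]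
    rfl
  · rw [blockPerm_of_notMem e _ hz, blockPerm_of_notMem e _ hz, blockPerm_of_notMem e _ hz]

theorem blockPerm_one {m n : ℕ} (e : Fin m × Fin 5 ↪ Fin n) :
    blockPerm e 1 = 1 := by
  ext z
  congr 1
  by_cases hz : z ∈ Set.range e
  · obtain ⟨⟨c, k⟩, rfl⟩ := hz
    rw [blockPerm_apply]
    rfl
  · rw [blockPerm_of_notMem e _ hz]
    rfl

/-- the action on the literals -/
noncomputable def actL {m n : ℕ} (e : Fin m × Fin 5 ↪ Fin n) (γ : Fin m → A5) (l : Lit n) :
    Lit n :=
  (l.1.map (blockPerm e (fun i => (γ i : Equiv.Perm (Fin 5)))), l.2)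

theorem actL_mul {m n : ℕ} (e : Fin m × Fin 5 ↪ Fin n) (a b : Fin m → A5) :
    actL e (a * b) = actL e a ∘ actL e b := by
  funext l
  unfold actL
  have : (fun i => ((a * b) i : Equiv.Perm (Fin 5))) =
      (fun i => (a i : Equiv.Perm (Fin 5))) * (fun i => (b i : Equiv.Perm (Fin 5))) := rfl
  rw [this, blockPerm_mul, Equiv.Perm.coe_mul, Sym2.map_comp]
  rfl

theorem actL_one {m n : ℕ} (e : Fin m × Fin 5 ↪ Fin n) :
    actL e 1 = id := by
  funext l
  unfold actL
  have : (fun i => ((1 : Fin m → A5) i : Equiv.Perm (Fin 5))) = 1 := rfl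
  rw [this, blockPerm_one, Equiv.Perm.coe_one, Sym2.map_id]
  rfl

theorem BlockSym.act {m n s : ℕ} {e : Fin m × Fin 5 ↪ Fin n} {C : Net (Lit n) Bool s}
    (h : BlockSym e C) (γ : Fin m → A5) : ∃ α, C.IsAut (actL e γ) α :=
  h (fun i => (γ i : Equiv.Perm (Fin 5))) (fun i => (γ i).2)

/-- restriction to fewer blocks -/
theorem BlockSym.restrict {m n s M : ℕ} {e : Fin m × Fin 5 ↪ Fin n} {C : Net (Lit n) Bool s}
    (h : BlockSym e C) (hM : M ≤ m) :
    BlockSym (((Fin.castLEEmb hM).prodMap (Function.Embedding.refl (Fin 5))).trans e) C := by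
  intro γ hγ
  set γ' : Fin m → Equiv.Perm (Fin 5) := fun i => if hi : i.1 < M then γ ⟨i.1, hi⟩ else 1 with hγ'
  obtain ⟨α, hα⟩ := h γ' (fun i => by
    rw [hγ']
    simp only
    split_ifs
    · exact hγ _
    · exact one_mem _)
  refine ⟨α, ?_⟩
  have : blockPerm e γ' =
      blockPerm (((Fin.castLEEmb hM).prodMap (Function.Embedding.refl (Fin 5))).trans e) γ := by
    ext z
    congr 1
    by_cases hz : z ∈ Set.range e
    · obtain ⟨⟨c, k⟩, rfl⟩ := hz
      rw [blockPerm_apply]
      by_cases hc : c.1 < M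
      · have e1 : e (c, k) = (((Fin.castLEEmb hM).prodMap
            (Function.Embedding.refl (Fin 5))).trans e) (⟨c.1, hc⟩, k) := rfl
        rw [e1, blockPerm_apply, hγ']
        simp only [hc, dif_pos]
        rfl
      · rw [blockPerm_of_notMem]
        · rw [hγ']
          simp only [hc, dif_neg, not_false_eq_true, Equiv.Perm.coe_one, id]
        · rintro ⟨⟨c', k'⟩, hck⟩
          have := e.injective hck
          rw [Prod.mk.injEq] at this
          apply hc
          rw [← this.1]
          exact c'.2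
    · rw [blockPerm_of_notMem e _ hz, blockPerm_of_notMem]
      rintro ⟨⟨c', k'⟩, hck⟩
      exact hz ⟨_, hck⟩
  rw [this] at hα
  exact hα

/-- the rotation of five points, an even permutation that fixes no set of one or two points -/
def rot : A5 := ⟨finRotate 5, by rw [Equiv.Perm.mem_alternatingGroup]; decide⟩

theorem rot_pair : ∀ k k' : Fin 5, ¬ ((rot.1 k = k ∧ rot.1 k' = k') ∨
    (rot.1 k = k' ∧ rot.1 k' = k)) := by
  decide

theorem rot_ne : ∀ k : Fin 5, rot.1 k ≠ k := by
  decide

/-- every pair with an endpoint in the block `c` is moved by an element of the factor `c` -/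
theorem moved {m n : ℕ} (e : Fin m × Fin 5 ↪ Fin n) (c : Fin m) (k : Fin 5) (v : Fin n) (b : Bool) :
    actL e (Pi.mulSingle c rot) (s(e (c, k), v), b) ≠ (s(e (c, k), v), b) := by
  intro h
  unfold actL at h
  rw [Prod.mk.injEq] at h
  have h1 := h.1
  simp only [Sym2.map_mk] at h1
  have hc : ((Pi.mulSingle c rot : Fin m → A5) c : Equiv.Perm (Fin 5)) = rot.1 := by
    simp
  rw [blockPerm_apply, hc, Sym2.eq_iff] at h1
  by_cases hv : ∃ k', v = e (c, k')
  · obtain ⟨k', rfl⟩ := hv
    rw [blockPerm_apply, hc] at h1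
    simp only [EmbeddingLike.apply_eq_iff_eq, Prod.mk.injEq, true_and] at h1
    exact rot_pair k k' h1
  · have h2 : blockPerm e (fun i => ((Pi.mulSingle c rot : Fin m → A5) i : Equiv.Perm (Fin 5))) v
        = v := by
      by_cases hz : v ∈ Set.range e
      · obtain ⟨⟨c', k'⟩, rfl⟩ := hz
        have hcc : c' ≠ c := by
          rintro rfl
          exact hv ⟨k', rfl⟩
        rw [blockPerm_apply, Pi.mulSingle_eq_of_ne hcc]
        rfl
      · exact blockPerm_of_notMem e _ hz
    rw [h2] at h1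
    rcases h1 with h1 | h1
    · have := e.injective h1.1
      rw [Prod.mk.injEq] at this
      exact rot_ne k this.2
    · exact hv ⟨k, h1.2⟩

end Pool.Agent.W893.SY
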