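import Pool.Agent.W893.SY.Val

/-! The main lemma: circuits with small supports do not distinguish locally equivalent inputs. -/

namespace Pool.Agent.W893.SY

open Finset

variable {I R : Type} {s : ℕ}

theorem count_map_eq_sum {α β : Type} [DecidableEq β] (w : Multiset α) (f : α → β) (z : β) :
    (w.map f).count z = (w.map fun p => if z = f p then 1 else 0).sum := by
  induction w using Multiset.induction_on with
  | empty => simp
  | cons a w ih =>
    rw [Multiset.map_cons, Multiset.count_cons, ih, Multiset.map_cons, Multiset.sum_cons]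
    ring

/-- Set the coordinates in `X` to one. -/
def mask {m : ℕ} {P : Type} [Group P] (X : Finset (Fin m)) (a : Fin m → P) : Fin m → P :=
  fun i => if i ∈ X then 1 else a i

theorem mask_mul {m : ℕ} {P : Type} [Group P] (X : Finset (Fin m)) (a b : Fin m → P) :
    mask X (a * b) = mask X a * mask X b := by
  funext i
  simp only [mask, Pi.mul_apply]
  split_ifs <;> simp

theorem mask_mask {m : ℕ} {P : Type} [Group P] {X X' : Finset (Fin m)} (h : X ⊆ X')
    (a : Fin m → P) : mask X (mask X' a) = mask X' a := by
  funext i
  simp only [mask]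
  by_cases h1 : i ∈ X
  · rw [if_pos h1, if_pos (h h1)]
  · rw [if_neg h1]

/-- Local equivalence of the inputs `x` and `y`: a family of local block permutations (the pairs
`X`, `δ` with `F X δ`) with the extension property, carrying `x` to `y`. -/
structure Locally {m : ℕ} {P : Type} [Group P] (act : (Fin m → P) → I → I) (x y : I → R) (K : ℕ)
    (F : Finset (Fin m) → (Fin m → P) → Prop) : Prop where
  base : F ∅ 1
  ext : ∀ X δ, F X δ → X.card < K → ∀ j, j ∉ X → ∃ δ', F (insert j X) δ' ∧ ∀ i ∈ X, δ' i = δ i
  mono : ∀ X X' δ, X' ⊆ X → F X δ → F X' δ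
  congr : ∀ X δ δ', (∀ i ∈ X, δ i = δ' i) → F X δ → F X δ'
  inp : ∀ X δ i, F X δ → (∀ j, (∃ π : P, act (Pi.mulSingle j π) i ≠ i) → j ∈ X) →
    x i = y (act δ i)

section

variable {m : ℕ} {P : Type} [Group P] [Fintype P] {act : (Fin m → P) → I → I}
  {x y : I → R} {K : ℕ} {F : Finset (Fin m) → (Fin m → P) → Prop}

theorem transfer (hmul : ∀ a b, act (a * b) = act a ∘ act b)
    (hL : Locally act x y K F) (C : Net I R s) (h : Fin s) (Xh : Finset (Fin m))
    (hXh : ∀ a : Fin m → P, (∀ i ∈ Xh, a i = 1) → ∃ α, C.IsAut (act a) α ∧ α h = h)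
    (hcl : ∀ ρ τ : Fin m → P, F Xh (τ * ρ⁻¹) → C.val (x ∘ act ρ) h = C.val (y ∘ act τ) h)
    (φ : R → ℕ) :
    ∀ (n : ℕ) (X : Finset (Fin m)) (ρ τ : Fin m → P), (Xh \ X).card = n → (X ∪ Xh).card ≤ K →
      F X (τ * ρ⁻¹) →
      ∑ a : Fin m → P, φ (C.val (x ∘ act (ρ * mask X a)) h) =
        ∑ a : Fin m → P, φ (C.val (y ∘ act (τ * mask X a)) h) := by
  classical
  intro n
  induction n with
  | zero =>
    intro X ρ τ hn _ hF
    have hsub : Xh ⊆ X := by
      rw [card_eq_zero, sdiff_eq_empty_iff_subset] at hn
      exact hn
    have key : ∀ (z : I → R) (ρ a : Fin m → P),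
        C.val (z ∘ act (ρ * mask X a)) h = C.val (z ∘ act ρ) h := by
      intro z ρ a
      obtain ⟨α, hα, hαh⟩ := hXh (mask X a) (fun i hi => by
        simp only [mask]; rw [if_pos (hsub hi)])
      rw [hmul, ← Function.comp_assoc, C.val_aut hα, hαh]
    apply sum_congr rfl
    intro a _
    rw [key, key, hcl ρ τ (hL.mono _ _ _ hsub hF)]
  | succ n ih =>
    intro X ρ τ hn hK hF
    have hne : (Xh \ X).Nonempty := by
      rw [← card_pos, hn]; omega
    obtain ⟨j, hj⟩ := hne
    rw [mem_sdiff] at hj
    have hXK : X.card < K := by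
      have h1 : X.card < (X ∪ Xh).card := by
        apply card_lt_card
        rw [ssubset_iff_of_subset subset_union_left]
        exact ⟨j, mem_union_right _ hj.1, hj.2⟩
      omega
    obtain ⟨δ', hδ', hag⟩ := hL.ext X _ hF hXK j hj.2
    set X' := insert j X with hX'
    have hXX' : X ⊆ X' := subset_insert _ _
    set y₀ : Fin m → P := Pi.mulSingle j ((τ j)⁻¹ * δ' j * ρ j) with hy₀
    have hy₀m : mask X y₀ = y₀ := by
      funext i
      simp only [mask]
      by_cases hi : i ∈ X
      · rw [if_pos hi, hy₀, Pi.mulSingle_eq_of_ne]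
        rintro rfl
        exact hj.2 hi
      · rw [if_neg hi]
    have hcard : (Xh \ X').card = n := by
      have h1 : Xh \ X = insert j (Xh \ X') := by
        ext i
        simp only [mem_sdiff, mem_insert, hX', not_or]
        constructor
        · rintro ⟨h1, h2⟩
          by_cases h3 : i = j
          · exact Or.inl h3
          · exact Or.inr ⟨h1, h3, h2⟩
        · rintro (rfl | ⟨h1, _, h2⟩)
          · exact hj
          · exact ⟨h1, h2⟩
      rw [h1, card_insert_of_notMem (by simp [hX'])] at hn
      omega
    have hun : (X' ∪ Xh).card ≤ K := by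
      have : X' ∪ Xh = X ∪ Xh := by
        rw [hX', insert_union, insert_eq_of_mem (mem_union_right _ hj.1)]
      rw [this]; exact hK
    -- the inductive hypothesis, for each `a`
    have step : ∀ a : Fin m → P,
        ∑ b : Fin m → P, φ (C.val (x ∘ act (ρ * mask X a * mask X' b)) h) =
        ∑ b : Fin m → P, φ (C.val (y ∘ act (τ * y₀ * mask X a * mask X' b)) h) := by
      intro a
      apply ih X' (ρ * mask X a) (τ * y₀ * mask X a) hcard hun
      have e : τ * y₀ * mask X a * (ρ * mask X a)⁻¹ = τ * y₀ * ρ⁻¹ := by group
      rw [e]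
      apply hL.congr _ _ _ _ hδ'
      intro i hi
      rw [hX', mem_insert] at hi
      by_cases hij : i = j
      · subst hij
        simp [hy₀, mul_assoc]
      · have hiX := hi.resolve_left hij
        rw [hag i hiX]
        simp only [Pi.mul_apply, Pi.inv_apply, hy₀]
        rw [Pi.mulSingle_eq_of_ne hij, mul_one]
    have hG : (0 : ℕ) < Fintype.card (Fin m → P) := Fintype.card_pos
    apply Nat.eq_of_mul_eq_mul_left hG
    have big : ∀ (z : I → R) (ρ c : Fin m → P), mask X c = c →
        Fintype.card (Fin m → P) * ∑ a : Fin m → P, φ (C.val (z ∘ act (ρ * mask X a)) h) =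
        ∑ a : Fin m → P, ∑ b : Fin m → P, φ (C.val (z ∘ act (ρ * c * mask X a * mask X' b)) h) := by
      intro z ρ c hc
      rw [sum_comm]
      have : ∀ b : Fin m → P, ∑ a : Fin m → P, φ (C.val (z ∘ act (ρ * c * mask X a * mask X' b)) h) =
          ∑ a : Fin m → P, φ (C.val (z ∘ act (ρ * mask X a)) h) := by
        intro b
        refine Fintype.sum_equiv ((Equiv.mulRight (mask X' b)).trans (Equiv.mulLeft c)) _ _ ?_
        intro a
        congr 3
        simp only [Equiv.trans_apply, Equiv.coe_mulRight, Equiv.coe_mulLeft, mask_mul,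
          mask_mask hXX', hc, mul_assoc]
      rw [sum_congr rfl (fun b _ => this b), sum_const, card_univ, smul_eq_mul]
    have e1 := big x ρ 1 (by funext i; simp [mask])
    have e2 := big y τ y₀ hy₀m
    rw [e1, e2]
    simp only [mul_one]
    exact sum_congr rfl (fun a _ => step a)

/-- **The main lemma.** -/
theorem core (hmul : ∀ a b, act (a * b) = act a ∘ act b)
    (hL : Locally act x y K F) (C : Net I R s) (κ : ℕ) (hsym : ∀ a, ∃ α, C.IsAut (act a) α)
    (hX : ∀ g : Fin s, ∃ X : Finset (Fin m), X.card ≤ 2 * κ ∧
      ∀ a : Fin m → P, (∀ i ∈ X, a i = 1) → ∃ α, C.IsAut (act a) α ∧ α g = g)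
    (hK : 4 * κ ≤ K) : C.val x C.out = C.val y C.out := by
  classical
  choose X hXc hXa using hX
  have claim : ∀ (g : Fin s) (ρ τ : Fin m → P), F (X g) (τ * ρ⁻¹) →
      C.val (x ∘ act ρ) g = C.val (y ∘ act τ) g := by
    intro g
    induction g using WellFoundedLT.induction with
    | ind g ih =>
      intro ρ τ hF
      rcases hc : C.gate g with i | ⟨w, f⟩
      · -- an input gate
        rw [C.val_inl _ hc, C.val_inl _ hc]
        have h2 := hL.inp (X g) (τ * ρ⁻¹) (act ρ i) hF (by
          rintro j ⟨π, hπ⟩
          by_contra hj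
          apply hπ
          have e : Pi.mulSingle j π * ρ = ρ * Pi.mulSingle j ((ρ j)⁻¹ * π * ρ j) := by
            funext k
            by_cases hk : k = j
            · subst hk
              simp [mul_assoc]
            · simp [Pi.mulSingle_eq_of_ne hk]
          have h3 : act (Pi.mulSingle j π) (act ρ i) =
              act ρ (act (Pi.mulSingle j ((ρ j)⁻¹ * π * ρ j)) i) := by
            have := congrArg (fun q => act q i) e
            simpa only [hmul, Function.comp_apply] using this
          rw [h3]
          congr 1
          obtain ⟨α, hα, hαg⟩ := hXa g (Pi.mulSingle j ((ρ j)⁻¹ * π * ρ j)) (by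
            intro k hk
            apply Pi.mulSingle_eq_of_ne
            rintro rfl
            exact hj hk)
          have h4 := hα.1 g
          rw [hαg, hc] at h4
          simpa using h4.symm)
        have h5 : act (τ * ρ⁻¹) (act ρ i) = act τ i := by
          rw [← Function.comp_apply (f := act (τ * ρ⁻¹)), ← hmul]
          congr 2
          group
        rw [h5] at h2
        exact h2
      · rw [C.val_inr _ hc, C.val_inr _ hc]
        congr 1
        rw [Multiset.ext]
        intro z
        -- the counts are invariant under the stabiliser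
        have inv : ∀ (u : I → R) (ρ a : Fin m → P),
            (w.map fun p => (p.1, C.val (u ∘ act (ρ * mask (X g) a)) p.2)).count z =
              (w.map fun p => (p.1, C.val (u ∘ act ρ) p.2)).count z := by
          intro u ρ a
          obtain ⟨α, hα, hαg⟩ := hXa g (mask (X g) a) (fun i hi => by
            simp only [mask]; rw [if_pos hi])
          have h4 := hα.1 g
          rw [hαg, hc] at h4
          simp only [Sum.map_inr, Prod.map_apply, Sum.inr.injEq, Prod.mk.injEq] at h4
          have h5 : w.map (fun p => (p.1, C.val (u ∘ act (ρ * mask (X g) a)) p.2)) =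
              w.map (fun p => (p.1, C.val (u ∘ act ρ) p.2)) := by
            conv_rhs => rw [h4.1]
            rw [Multiset.map_map]
            apply Multiset.map_congr rfl
            intro p _
            rw [hmul, ← Function.comp_assoc, C.val_aut hα]
            rfl
          rw [h5]
        have avg : ∀ (u : I → R) (ρ : Fin m → P),
            Fintype.card (Fin m → P) * (w.map fun p => (p.1, C.val (u ∘ act ρ) p.2)).count z =
            (w.map fun p => ∑ a : Fin m → P,
              if z = (p.1, C.val (u ∘ act (ρ * mask (X g) a)) p.2) then 1 else 0).sum := by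
          intro u ρ
          have : Fintype.card (Fin m → P) * (w.map fun p => (p.1, C.val (u ∘ act ρ) p.2)).count z =
              ∑ a : Fin m → P,
                (w.map fun p => (p.1, C.val (u ∘ act (ρ * mask (X g) a)) p.2)).count z := by
            rw [sum_congr rfl (fun a _ => inv u ρ a), sum_const, card_univ, smul_eq_mul]
          rw [this]
          simp only [count_map_eq_sum]
          exact Multiset.sum_map_sum_map _ _
        have hG : (0 : ℕ) < Fintype.card (Fin m → P) := Fintype.card_pos
        apply Nat.eq_of_mul_eq_mul_left hG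
        rw [avg x ρ, avg y τ]
        congr 1
        apply Multiset.map_congr rfl
        intro p hp
        have hlt := C.acyclic g w f hc p hp
        have h6 := transfer hmul hL C p.2 (X p.2) (hXa p.2) (fun ρ τ h => ih p.2 hlt ρ τ h)
          (fun r => if z = (p.1, r) then 1 else 0) _ (X g) ρ τ rfl (by
            calc (X g ∪ X p.2).card ≤ (X g).card + (X p.2).card := card_union_le _ _
              _ ≤ 2 * κ + 2 * κ := Nat.add_le_add (hXc _) (hXc _)
              _ ≤ K := by omega) hF
        exact h6
  have h7 := transfer hmul hL C C.out (X C.out) (hXa C.out) (fun ρ τ h => claim _ ρ τ h)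
    (fun r => if C.val x C.out = r then 1 else 0) _ ∅ 1 1 rfl (by
      rw [empty_union]
      exact (hXc _).trans (by omega)) (by
      rw [inv_one, mul_one]; exact hL.base)
  have h8 : ∀ (u : I → R) (a : Fin m → P), C.val (u ∘ act (1 * mask ∅ a)) C.out =
      C.val u C.out := by
    intro u a
    obtain ⟨α, hα⟩ := hsym (1 * mask ∅ a)
    rw [C.val_aut hα, hα.2]
  simp only [h8, if_true] at h7
  by_contra hne
  rw [if_neg hne] at h7
  simp at h7

end

end Pool.Agent.W893.SY
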