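import Pool.Agent.W893.SY.Lower
import Pool.Agent.W63.SY.SYSup
import Pool.Agent.W324.SY.Loc
import Pool.Agent.W45.SYExp
import Pool.Agent.W366.SY.SYUp

/-! Both bounds. -/

namespace Pool.Agent.W893.SY

open Finset

/-- The lower bound for all thresholds. -/
theorem lower : ∃ c : ℝ, 0 < c ∧ c ≤ 1 ∧ ∀ (n k m s : ℕ) (e : Fin m × Fin 5 ↪ Fin n)
    (C : Net (Lit n) Bool s), BlockSym e C → DecidesClique k C →
    c * 2 ^ (c * (min m (min k (n - k)) : ℕ)) ≤ (s : ℝ) := by
  classical
  obtain ⟨K, hK, hlow⟩ := lower_aux Pool.Agent.W45.SYExp.main Pool.Agent.W324.SY.main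
    Pool.Agent.W63.SYSup.main
  have hK1 : (1 : ℝ) ≤ K := by exact_mod_cast hK
  refine ⟨1 / (4 * K), by positivity, ?_, ?_⟩
  · rw [div_le_one (by positivity)]; linarith
  intro n k m s e C hsym hC
  set M := min m (min k ((n - k) / 4)) with hM
  have hMm : M ≤ m := min_le_left _ _
  have hMk : M ≤ k := (min_le_right _ _).trans (min_le_left _ _)
  have hMn : M ≤ (n - k) / 4 := (min_le_right _ _).trans (min_le_right _ _)
  set e' : Fin M × Fin 5 ↪ Fin n :=
    ((Fin.castLEEmb hMm).prodMap (Function.Embedding.refl (Fin 5))).trans e with he'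
  have hs : (1 : ℝ) ≤ s := by
    have := C.out.2
    exact_mod_cast (by omega : 1 ≤ s)
  -- universal vertices
  have hcard : ((univ : Finset (Fin M × Fin 5)).map e').card = 5 * M := by
    rw [card_map, card_univ, Fintype.card_prod, Fintype.card_fin, Fintype.card_fin, mul_comm]
  by_cases hkn : k ≤ n
  · obtain ⟨Un, hUn1, hUn2⟩ := exists_subset_card_eq (s := ((univ : Finset (Fin M × Fin 5)).map e')ᶜ)
      (n := k - M) (by rw [card_compl, hcard, Fintype.card_fin]; omega)
    have hUn : ∀ z ∈ Un, z ∉ Set.range e' := by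
      intro z hz hz'
      have := hUn1 hz
      rw [mem_compl] at this
      apply this
      obtain ⟨p, rfl⟩ := hz'
      exact mem_map_of_mem _ (mem_univ _)
    have hkk : M + Un.card = k := by rw [hUn2]; omega
    have h1 := hlow n M s e' Un C hUn (hsym.restrict hMm) (by rw [hkk]; exact hC)
    -- numerics
    have h2 : (min m (min k (n - k)) : ℕ) ≤ 4 * M + 3 := by omega
    have h3 : (min m (min k (n - k)) : ℕ) ≤ 4 * (K * (Nat.log 2 s + 1)) + 3 := by omega
    have h4 : ((min m (min k (n - k)) : ℕ) : ℝ) ≤ 4 * (K * ((Nat.log 2 s : ℕ) + 1)) + 3 := by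
      exact_mod_cast h3
    have h5 : 1 / (4 * (K : ℝ)) * ((min m (min k (n - k)) : ℕ) : ℝ) ≤ (Nat.log 2 s : ℕ) + 2 := by
      rw [div_mul_eq_mul_div, one_mul, div_le_iff₀ (by positivity)]
      nlinarith
    have h6 : (2 : ℝ) ^ (1 / (4 * (K : ℝ)) * ((min m (min k (n - k)) : ℕ) : ℝ)) ≤
        (2 : ℝ) ^ (((Nat.log 2 s : ℕ) : ℝ) + 2) :=
      Real.rpow_le_rpow_of_exponent_le (by norm_num) h5
    have h7 : (2 : ℝ) ^ (((Nat.log 2 s : ℕ) : ℝ) + 2) = 4 * (2 ^ (Nat.log 2 s) : ℕ) := by
      rw [Real.rpow_add (by norm_num), Real.rpow_natCast]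
      push_cast
      norm_num
      ring
    have h8 : ((2 ^ (Nat.log 2 s) : ℕ) : ℝ) ≤ s := by
      exact_mod_cast Nat.pow_log_le_self 2 (by
        have := C.out.2
        omega)
    calc 1 / (4 * (K : ℝ)) * 2 ^ (1 / (4 * (K : ℝ)) * ((min m (min k (n - k)) : ℕ) : ℝ))
        ≤ 1 / (4 * (K : ℝ)) * (4 * (2 ^ (Nat.log 2 s) : ℕ)) := by
          rw [← h7]
          exact mul_le_mul_of_nonneg_left h6 (by positivity)
      _ ≤ 1 / (4 * (K : ℝ)) * (4 * s) := by
          apply mul_le_mul_of_nonneg_left _ (by positivity)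
          linarith
      _ = s / K := by field_simp
      _ ≤ s := div_le_self (by linarith) hK1
  · have h0 : min m (min k (n - k)) = 0 := by omega
    rw [h0]
    simp only [Nat.cast_zero, mul_zero, Real.rpow_zero, mul_one]
    calc 1 / (4 * (K : ℝ)) ≤ 1 := by
          rw [div_le_one (by positivity)]; linarith
      _ ≤ s := hs

theorem card_G (m : ℕ) [Fintype (Fin m → A5)] : Fintype.card (Fin m → A5) = 60 ^ m := by
  have h2 : Nat.card A5 = 60 := by
    have h := two_mul_nat_card_alternatingGroup (α := Fin 5)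
    rw [Nat.card_perm, Nat.card_eq_fintype_card (α := Fin 5), Fintype.card_fin] at h
    have h2 : Nat.factorial 5 = 120 := rfl
    rw [h2] at h
    show Nat.card (alternatingGroup (Fin 5)) = 60
    omega
  rw [← Nat.card_eq_fintype_card, Nat.card_fun, h2, Nat.card_eq_fintype_card, Fintype.card_fin]

theorem lit_comp {m n : ℕ} (e : Fin m × Fin 5 ↪ Fin n) (G : SimpleGraph (Fin n)) (a : Fin m → A5) :
    lit G ∘ actL e a = lit (G.comap (blockPerm e (fun i => (a i : Equiv.Perm (Fin 5))))) := by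
  funext ⟨l, b⟩
  unfold lit actL
  simp only [Function.comp_apply]
  rw [decide_eq_decide]
  induction l using Sym2.ind with
  | h z z' =>
    simp only [Sym2.map_mk, SimpleGraph.mem_edgeSet, SimpleGraph.comap_adj]

/-- The upper bound. -/
theorem upper (n k m s : ℕ) (e : Fin m × Fin 5 ↪ Fin n) (C : Net (Lit n) Bool s) (hC : C.AndOr)
    (hk : DecidesClique k C) : ∃ C' : Net (Lit n) Bool (60 ^ m * s + 1),
      C'.AndOr ∧ BlockSym e C' ∧ DecidesClique k C' := by
  classical
  have hmain := Pool.Agent.W366.SYUp.main (Lit n) (Fin m → A5) (actL e) s C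
    (actL_one e) (actL_mul e) hC
  rw [card_G] at hmain
  obtain ⟨C', h1, h2, h3⟩ := hmain
  refine ⟨C', h1, ?_, ?_⟩
  · intro γ hγ
    exact h2 (fun i => ⟨γ i, hγ i⟩)
  · intro G
    rw [h3]
    constructor
    · rintro ⟨a, ha⟩
      rw [lit_comp] at ha
      obtain ⟨S, hS⟩ := (hk _).1 ha
      refine ⟨S.map (blockPerm e (fun i => (a i : Equiv.Perm (Fin 5)))).toEmbedding, ?_⟩
      rw [SimpleGraph.isNClique_iff] at hS ⊢
      refine ⟨?_, by rw [card_map, hS.2]⟩
      rw [SimpleGraph.isClique_iff] at hS ⊢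
      intro z hz z' hz' hne
      simp only [coe_map, Set.mem_image, mem_coe] at hz hz'
      obtain ⟨u, hu, rfl⟩ := hz
      obtain ⟨u', hu', rfl⟩ := hz'
      exact hS.1 hu hu' (fun h => hne (by rw [h]))
    · intro hG
      refine ⟨1, ?_⟩
      rw [lit_comp]
      rw [hk]
      have : blockPerm e (fun i => (((1 : Fin m → A5) i : A5) : Equiv.Perm (Fin 5))) = 1 :=
        blockPerm_one e
      rw [this]
      exact hG

end Pool.Agent.W893.SY
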