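import Pool.Agent.W893.SY.Fin1

/-! The dichotomy. -/

namespace Pool.Agent.W893.SY

open Finset

theorem le_of_emb {m n : ℕ} (e : Fin m × Fin 5 ↪ Fin n) : m ≤ n := by
  have := Fintype.card_le_of_embedding e
  rw [Fintype.card_prod, Fintype.card_fin, Fintype.card_fin, Fintype.card_fin] at this
  omega

/-- few blocks: symmetry is free up to a polynomial -/
theorem few (m : ℕ → ℕ) (e : ∀ n, Fin (m n) × Fin 5 ↪ Fin n)
    (hm : ∃ a, ∀ n, 2 ≤ n → m n ≤ a * Nat.log 2 n)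
    (h : ∃ d : ℕ, ∀ n, 2 ≤ n → ∃ s, s ≤ n ^ d ∧ ∃ C : Net (Lit n) Bool s,
      C.AndOr ∧ DecidesClique (Nat.sqrt n + 1) C) :
    ∃ d : ℕ, ∀ n, 2 ≤ n → ∃ s, s ≤ n ^ d ∧ ∃ C : Net (Lit n) Bool s,
      C.AndOr ∧ BlockSym (e n) C ∧ DecidesClique (Nat.sqrt n + 1) C := by
  obtain ⟨a, ha⟩ := hm
  obtain ⟨d, hd⟩ := h
  refine ⟨6 * a + d + 1, fun n hn => ?_⟩
  obtain ⟨s, hs, C, h1, h2⟩ := hd n hn
  obtain ⟨C', h3, h4, h5⟩ := upper n _ (m n) s (e n) C h1 h2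
  refine ⟨_, ?_, C', h3, h4, h5⟩
  have h6 : 60 ^ m n ≤ n ^ (6 * a) := by
    calc 60 ^ m n ≤ 60 ^ (a * Nat.log 2 n) := Nat.pow_le_pow_right (by norm_num) (ha n hn)
      _ ≤ (2 ^ 6) ^ (a * Nat.log 2 n) := Nat.pow_le_pow_left (by norm_num) _
      _ = (2 ^ Nat.log 2 n) ^ (6 * a) := by rw [← pow_mul, ← pow_mul]; congr 1; ring
      _ ≤ n ^ (6 * a) := Nat.pow_le_pow_left (Nat.pow_log_le_self 2 (by omega)) _
  have h7 : 1 ≤ n ^ (6 * a + d) := Nat.one_le_pow _ _ (by omega)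
  calc 60 ^ m n * s + 1 ≤ n ^ (6 * a) * n ^ d + 1 := by
        exact Nat.add_le_add_right (Nat.mul_le_mul h6 hs) 1
    _ = n ^ (6 * a + d) + 1 := by rw [pow_add]
    _ ≤ n ^ (6 * a + d) * 2 := by omega
    _ ≤ n ^ (6 * a + d) * n := Nat.mul_le_mul_left _ hn
    _ = n ^ (6 * a + d + 1) := by rw [pow_succ]

/-- for large `n`, `a * log n` is smaller than both `√n` and `n - √n` -/
theorem log_small (a : ℕ) : ∃ n₀ : ℕ, ∀ n, n₀ ≤ n →
    a * Nat.log 2 n < Nat.sqrt n + 1 ∧ a * Nat.log 2 n < n - (Nat.sqrt n + 1) := by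
  have h1 : ∃ n₀ : ℕ, ∀ n, n₀ ≤ n → a * Nat.log 2 n < Nat.sqrt n := by
    -- `log 2 n ≤ 4 * n ^ (1/4)`, through powers of two
    have hex : ∃ j₀ : ℕ, ∀ j, j₀ ≤ j → a * (2 * (j + 1)) < 2 ^ j := by
      have := tendsto_pow_const_div_const_pow_of_one_lt 1 (by norm_num : (1 : ℝ) < 2)
      have h2 : ∀ᶠ j : ℕ in Filter.atTop, ((j : ℝ) ^ 1 / 2 ^ j) < 1 / (4 * a + 4) := by
        apply this.eventually (gt_mem_nhds _)
        positivity
      obtain ⟨j₀, hj₀⟩ := Filter.eventually_atTop.1 h2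
      refine ⟨j₀ + 1, fun j hj => ?_⟩
      have h3 := hj₀ j (by omega)
      rw [div_lt_div_iff₀ (by positivity) (by positivity), pow_one, one_mul] at h3
      have hj1 : (1 : ℝ) ≤ j := by exact_mod_cast (by omega : 1 ≤ j)
      have h4 : ((a * (2 * (j + 1)) : ℕ) : ℝ) < ((2 ^ j : ℕ) : ℝ) := by
        push_cast
        have ha : (0 : ℝ) ≤ a := Nat.cast_nonneg a
        nlinarith
      exact_mod_cast h4
    obtain ⟨j₀, hj₀⟩ := hex
    refine ⟨2 ^ (2 * (j₀ + 1)), fun n hn => ?_⟩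
    set l := Nat.log 2 n with hl
    have hn0 : n ≠ 0 := by
      have : 0 < 2 ^ (2 * (j₀ + 1)) := by positivity
      omega
    have h5 : 2 * (j₀ + 1) ≤ l := (Nat.le_log_iff_pow_le (by norm_num) hn0).2 hn
    have h6 : 2 ^ l ≤ n := Nat.pow_log_le_self 2 hn0
    have h7 := hj₀ (l / 2) (by omega)
    have h8 : 2 ^ (l / 2) ≤ Nat.sqrt n := by
      rw [Nat.le_sqrt, ← pow_add]
      exact (Nat.pow_le_pow_right (by norm_num) (by omega)).trans h6
    have h9 : l ≤ 2 * (l / 2 + 1) := by omega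
    calc a * l ≤ a * (2 * (l / 2 + 1)) := Nat.mul_le_mul_left _ h9
      _ < 2 ^ (l / 2) := h7
      _ ≤ Nat.sqrt n := h8
  obtain ⟨n₀, hn₀⟩ := h1
  refine ⟨max n₀ 16, fun n hn => ?_⟩
  have h2 := hn₀ n (le_trans (le_max_left _ _) hn)
  have h3 : 16 ≤ n := le_trans (le_max_right _ _) hn
  have h4 : Nat.sqrt n * Nat.sqrt n ≤ n := Nat.sqrt_le n
  have h5 : 4 ≤ Nat.sqrt n := by
    rw [Nat.le_sqrt]; omega
  refine ⟨by omega, ?_⟩
  have h6 : 4 * Nat.sqrt n ≤ n := le_trans (Nat.mul_le_mul_right _ h5) h4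
  omega

/-- many blocks: no polynomial-size symmetric circuits -/
theorem many (m : ℕ → ℕ) (e : ∀ n, Fin (m n) × Fin 5 ↪ Fin n)
    (hm : ¬ ∃ a, ∀ n, 2 ≤ n → m n ≤ a * Nat.log 2 n) :
    ¬ ∃ d : ℕ, ∀ n, 2 ≤ n → ∃ s, s ≤ n ^ d ∧ ∃ C : Net (Lit n) Bool s,
      BlockSym (e n) C ∧ DecidesClique (Nat.sqrt n + 1) C := by
  rintro ⟨d, hd⟩
  apply hm
  obtain ⟨c, hc, hc1, hlow⟩ := lower
  -- the bound for the minimum
  obtain ⟨A, hA⟩ := exists_nat_gt ((2 * d + 1 / c) / c + 1)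
  have key : ∀ n, 2 ≤ n → min (m n) (min (Nat.sqrt n + 1) (n - (Nat.sqrt n + 1))) ≤
      A * Nat.log 2 n := by
    intro n hn
    obtain ⟨s, hs, C, h1, h2⟩ := hd n hn
    have h3 := hlow n _ (m n) s (e n) C h1 h2
    set μ : ℕ := min (m n) (min (Nat.sqrt n + 1) (n - (Nat.sqrt n + 1))) with hμ
    set l := Nat.log 2 n with hl
    have hl1 : 1 ≤ l := (Nat.le_log_iff_pow_le (by norm_num) (by omega)).2 (by simpa using hn)
    have h4 : n < 2 ^ (l + 1) := Nat.lt_pow_succ_log_self (by norm_num) n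
    have h5 : (s : ℝ) ≤ (2 : ℝ) ^ ((2 * l * d : ℕ) : ℝ) := by
      rw [Real.rpow_natCast]
      have : s ≤ 2 ^ (2 * l * d) := by
        calc s ≤ n ^ d := hs
          _ ≤ (2 ^ (l + 1)) ^ d := Nat.pow_le_pow_left h4.le _
          _ = 2 ^ ((l + 1) * d) := by rw [← pow_mul]
          _ ≤ 2 ^ (2 * l * d) := Nat.pow_le_pow_right (by norm_num)
              (Nat.mul_le_mul_right _ (by omega))
      exact_mod_cast this
    have h6 : (2 : ℝ) ^ (-(1 / c)) ≤ c := by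
      -- `1 / c ≤ 2 ^ (1 / c)`
      have : 1 / c ≤ (2 : ℝ) ^ (1 / c) := by
        have h7 : (1 / c : ℝ) ≤ (⌈1 / c⌉₊ : ℝ) := Nat.le_ceil _
        have hone : (1 : ℝ) ≤ 1 / c := by rw [le_div_iff₀ hc]; linarith
        have h8 : 1 + (1 / c - 1) * 1 ≤ (1 + 1 : ℝ) ^ (1 / c) := by
          have := one_add_mul_self_le_rpow_one_add (s := (1 : ℝ)) (by norm_num) hone
          linarith
        have h9 : (1 + 1 : ℝ) = 2 := by norm_num
        rw [h9] at h8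
        linarith
      rw [Real.rpow_neg (by norm_num), inv_le_comm₀ (by positivity) hc]
      rwa [one_div] at this ⊢
    have h7 : (2 : ℝ) ^ (-(1 / c) + c * μ) ≤ 2 ^ ((2 * l * d : ℕ) : ℝ) := by
      rw [Real.rpow_add (by norm_num)]
      calc (2 : ℝ) ^ (-(1 / c)) * 2 ^ (c * (μ : ℝ)) ≤ c * 2 ^ (c * (μ : ℝ)) :=
            mul_le_mul_of_nonneg_right h6 (by positivity)
        _ ≤ s := h3
        _ ≤ _ := h5
    have h8 := (Real.rpow_le_rpow_left_iff (by norm_num : (1 : ℝ) < 2)).1 h7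
    push_cast at h8
    have hlr : (1 : ℝ) ≤ l := by exact_mod_cast hl1
    have h9 : (μ : ℝ) * c ≤ (2 * d + 1 / c) * l := by
      have h10 : 1 / c * 1 ≤ 1 / c * l := mul_le_mul_of_nonneg_left hlr (by positivity)
      nlinarith
    have h10 : (μ : ℝ) ≤ (2 * d + 1 / c) / c * l := by
      rw [div_mul_eq_mul_div, le_div_iff₀ hc]
      exact h9
    have h11 : (μ : ℝ) ≤ (A : ℝ) * l := by
      refine h10.trans (mul_le_mul_of_nonneg_right ?_ (by linarith))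
      linarith
    exact_mod_cast h11
  obtain ⟨n₀, hn₀⟩ := log_small A
  refine ⟨max A n₀, fun n hn => ?_⟩
  have hl1 : 1 ≤ Nat.log 2 n :=
    (Nat.le_log_iff_pow_le (by norm_num) (by omega)).2 (by simpa using hn)
  by_cases hnn : n₀ ≤ n
  · obtain ⟨h1, h2⟩ := hn₀ n hnn
    have h3 := key n hn
    have h4 : m n ≤ A * Nat.log 2 n := by
      rcases le_or_gt (m n) (A * Nat.log 2 n) with h | h
      · exact h
      · exfalso
        have : A * Nat.log 2 n < min (m n) (min (Nat.sqrt n + 1) (n - (Nat.sqrt n + 1))) := by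
          rw [lt_min_iff, lt_min_iff]
          exact ⟨h, h1, h2⟩
        omega
    exact h4.trans (Nat.mul_le_mul_right _ (le_max_left _ _))
  · have h1 := le_of_emb (e n)
    calc m n ≤ n₀ := by omega
      _ ≤ max A n₀ * 1 := by rw [mul_one]; exact le_max_right _ _
      _ ≤ max A n₀ * Nat.log 2 n := Nat.mul_le_mul_left _ hl1

end Pool.Agent.W893.SY
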