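import Pool.Agent.W893.SY.Graph

/-! The lower bound. -/

namespace Pool.Agent.W893.SY

open Finset

/-- the constant vectors (the dual of the even vectors) -/
def Dc (k : ℕ) : AddSubgroup (Fin k → ZMod 2) where
  carrier := {h | ∃ t, ∀ i, h i = t}
  add_mem' := by
    rintro a b ⟨s, hs⟩ ⟨t, ht⟩
    exact ⟨s + t, fun i => by rw [Pi.add_apply, hs, ht]⟩
  zero_mem' := ⟨0, fun _ => rfl⟩
  neg_mem' := by
    rintro a ⟨s, hs⟩
    exact ⟨-s, fun i => by rw [Pi.neg_apply, hs]⟩

theorem Dc_weight {k : ℕ} (hk : 3 ≤ k) (h : Fin k → ZMod 2) (hD : h ∈ Dc k) (h0 : h ≠ 0) :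
    3 ≤ (univ.filter fun i => h i ≠ 0).card := by
  obtain ⟨t, ht⟩ := hD
  have ht0 : t ≠ 0 := by
    rintro rfl
    exact h0 (funext ht)
  have : (univ.filter fun i => h i ≠ 0) = univ := by
    rw [filter_true_of_mem]
    intro i _
    rw [ht]; exact ht0
  rw [this]
  simpa using hk

/-- variables of the constraints in `X` -/
def vs {M N k : ℕ} (ν : Fin M → Fin k → Fin N) (X : Finset (Fin M)) : Finset (Fin k × Fin N) :=
  X.biUnion fun c => univ.image fun i => (i, ν c i)

theorem mem_vs {M N k : ℕ} (ν : Fin M → Fin k → Fin N) {X : Finset (Fin M)} {c : Fin M}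
    (hc : c ∈ X) (i : Fin k) : (i, ν c i) ∈ vs ν X :=
  mem_biUnion.2 ⟨c, hc, mem_image.2 ⟨i, mem_univ _, rfl⟩⟩

theorem vs_mono {M N k : ℕ} (ν : Fin M → Fin k → Fin N) {X X' : Finset (Fin M)} (h : X ⊆ X') :
    vs ν X ⊆ vs ν X' := biUnion_subset_biUnion_of_subset_left _ h

theorem card_vs {M N k : ℕ} (ν : Fin M → Fin k → Fin N) (X : Finset (Fin M)) :
    (vs ν X).card ≤ k * X.card := by
  calc (vs ν X).card ≤ X.card * k := card_biUnion_le_card_mul _ _ _ (fun c _ => by
        calc _ ≤ (univ : Finset (Fin k)).card := card_image_le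
          _ = k := by simp)
    _ = k * X.card := mul_comm _ _

theorem GoodOn.mono {k N M r : ℕ} {ν : Fin M → Fin k → Fin N} {D : Set (Fin k → ZMod 2)}
    {β : Fin M → Fin k → ZMod 2} {V V' : Finset (Fin k × Fin N)} {a : Fin k × Fin N → ZMod 2}
    (h : GoodOn ν D β r V a) (hV : V' ⊆ V) : GoodOn ν D β r V' a :=
  fun f h1 h2 h3 => h f h1 h2 (fun p hp => h3 p (fun hp' => hp (hV hp')))

theorem GoodOn.congr {k N M r : ℕ} {ν : Fin M → Fin k → Fin N} {D : Set (Fin k → ZMod 2)}
    {β : Fin M → Fin k → ZMod 2} {V : Finset (Fin k × Fin N)} {a a' : Fin k × Fin N → ZMod 2}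
    (h : GoodOn ν D β r V a) (ha : ∀ p ∈ V, a' p = a p) : GoodOn ν D β r V a' := by
  intro f h1 h2 h3
  rw [← h f h1 h2 h3]
  apply sum_congr rfl
  intro p _
  by_cases hp : p ∈ V
  · rw [ha p hp]
  · rw [h3 p hp, zero_mul, zero_mul]

/-- extension to several variables -/
theorem extend {k N M r : ℕ} {ν : Fin M → Fin k → Fin N} {D : Set (Fin k → ZMod 2)}
    {β : Fin M → Fin k → ZMod 2}
    (hext : ∀ V a p, GoodOn ν D β r V a → 10 * (V.card + 1) ≤ r →
      ∃ a', GoodOn ν D β r (insert p V) a' ∧ ∀ q ∈ V, a' q = a q)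
    (W : Finset (Fin k × Fin N)) : ∀ (V : Finset (Fin k × Fin N)) (a : Fin k × Fin N → ZMod 2),
      GoodOn ν D β r V a → 10 * (V.card + W.card) ≤ r →
      ∃ a', GoodOn ν D β r (V ∪ W) a' ∧ ∀ q ∈ V, a' q = a q := by
  classical
  induction W using Finset.induction_on with
  | empty =>
    intro V a h _
    exact ⟨a, by rw [union_empty]; exact h, fun _ _ => rfl⟩
  | insert p W hp ih =>
    intro V a h hr
    rw [card_insert_of_notMem hp] at hr
    obtain ⟨a₁, h1, h2⟩ := hext V a p h (by omega)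
    obtain ⟨a₂, h3, h4⟩ := ih (insert p V) a₁ h1 (by
      have := card_insert_le p V
      omega)
    refine ⟨a₂, ?_, fun q hq => ?_⟩
    · have : V ∪ insert p W = insert p V ∪ W := by
        rw [union_insert, insert_union]
      rw [this]; exact h3
    · rw [h4 q (mem_insert_of_mem hq), h2 q hq]

/-- good assignments satisfy the equations of the constraints in `X` -/
theorem GoodOn.single {N M r : ℕ} {ν : Fin M → Fin 3 → Fin N}
    {β : Fin M → Fin 3 → ZMod 2} {X : Finset (Fin M)} {a : Fin 3 × Fin N → ZMod 2}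
    (h : GoodOn ν (Dc 3) β r (vs ν X) a) (hr : 1 ≤ r) (c : Fin M) (hc : c ∈ X) :
    ∑ i, a (i, ν c i) = ∑ i, β c i := by
  classical
  have h1 := h (fun c' => if c' = c then 1 else 0) (fun c' => by
    show (if c' = c then (1 : Fin 3 → ZMod 2) else 0) ∈ Dc 3
    split_ifs
    · exact ⟨1, fun _ => rfl⟩
    · exact zero_mem _) (by
    calc _ ≤ ({c} : Finset (Fin M)).card := by
          apply card_le_card
          intro c' hc'
          rw [mem_filter] at hc'
          rw [mem_singleton]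
          by_contra hne
          exact hc'.2 (if_neg hne)
      _ ≤ r := by simpa using hr)
  have hlf : ∀ p : Fin 3 × Fin N, lf ν (fun c' => if c' = c then 1 else 0) p =
      if ν c p.1 = p.2 then 1 else 0 := by
    intro p
    unfold lf
    rw [sum_eq_single c]
    · simp
    · intro c' _ hne
      simp [hne]
    · intro h; exact absurd (mem_univ _) h
  have h2 := h1 (fun p hp => by
    rw [hlf, if_neg]
    rintro h3
    apply hp
    have : p = (p.1, ν c p.1) := by rw [h3]
    rw [this]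
    exact mem_vs ν hc _)
  have h3 : ∑ c', ∑ i, (if c' = c then (1 : Fin 3 → ZMod 2) else 0) i * β c' i =
      ∑ i, β c i := by
    rw [sum_eq_single c]
    · simp
    · intro c' _ hne
      rw [if_neg hne]
      simp
    · intro h; exact absurd (mem_univ _) h
  rw [h3] at h2
  rw [← h2, Fintype.sum_prod_type]
  apply sum_congr rfl
  intro i _
  rw [sum_eq_single (ν c i)]
  · rw [hlf]; simp
  · intro v _ hv
    rw [hlf, if_neg (fun h => hv h.symm), zero_mul]
  · intro h; exact absurd (mem_univ _) h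

/-- the family of local isomorphisms -/
def Fam {N M : ℕ} (ν : Fin M → Fin 3 → Fin N) (β : Fin M → Fin 3 → ZMod 2) (r : ℕ)
    (X : Finset (Fin M)) (δ : Fin M → A5) : Prop :=
  ∃ a, GoodOn ν (Dc 3) β r (vs ν X) a ∧
    ∀ c ∈ X, δ c = tr (a (0, ν c 0) + β c 0) (a (1, ν c 1) + β c 1)

theorem locally_gr (hloc : S_loc) {N M n r K : ℕ} (ν : Fin M → Fin 3 → Fin N)
    (hν : ∀ Q : Finset (Fin M), Q.Nonempty → Q.card ≤ r →
      (5 * 3 - 7) * Q.card < 5 * (Q.biUnion fun c => univ.image (ν c)).card)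
    (β : Fin M → Fin 3 → ZMod 2) (e : Fin M × Fin 5 ↪ Fin n) (Un : Finset (Fin n))
    (hUn : ∀ z ∈ Un, z ∉ Set.range e) (hr : 1 ≤ r) (hK : 30 * K ≤ r) :
    Locally (actL e) (lit (gr ν 0 e Un)) (lit (gr ν β e Un)) K (Fam ν β r) := by
  classical
  obtain ⟨hbase, hext⟩ := hloc 3 N M r ν (Dc 3) β le_rfl hν (fun h hD h0 =>
    Dc_weight le_rfl h hD h0)
  constructor
  · refine ⟨0, ?_, fun c hc => absurd hc (notMem_empty _)⟩
    have : vs ν ∅ = ∅ := by simp [vs]
    rw [this]
    exact hbase 0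
  · rintro X δ ⟨a, ha, hδ⟩ hX j hj
    obtain ⟨a', ha', hag⟩ := extend hext (vs ν {j}) (vs ν X) a ha (by
      have h1 := card_vs ν X
      have h2 := card_vs ν ({j} : Finset (Fin M))
      rw [card_singleton] at h2
      omega)
    have hun : vs ν X ∪ vs ν {j} = vs ν (insert j X) := by
      simp only [vs]
      rw [insert_eq, union_comm {j} X, union_biUnion]
    rw [hun] at ha'
    refine ⟨fun c => if c ∈ insert j X then tr (a' (0, ν c 0) + β c 0) (a' (1, ν c 1) + β c 1)
      else 1, ⟨a', ha', fun c hc => if_pos hc⟩, fun c hc => ?_⟩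
    simp only [mem_insert_of_mem hc, if_true]
    rw [hδ c hc, hag _ (mem_vs ν hc 0), hag _ (mem_vs ν hc 1)]
  · rintro X X' δ hXX ⟨a, ha, hδ⟩
    exact ⟨a, ha.mono (vs_mono ν hXX), fun c hc => hδ c (hXX hc)⟩
  · rintro X δ δ' hδδ ⟨a, ha, hδ⟩
    exact ⟨a, ha, fun c hc => by rw [← hδδ c hc, hδ c hc]⟩
  · rintro X δ ⟨l, b⟩ ⟨a, ha, hδ⟩ hl
    have hs : ∀ c ∈ X, ∑ i, a (i, ν c i) = ∑ i, β c i := fun c hc => ha.single hr c hc
    induction l using Sym2.ind with
    | h z z' =>
      have hz : ∀ c k, z = e (c, k) → c ∈ X := by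
        rintro c k rfl
        exact hl c ⟨rot, moved e c k z' b⟩
      have hz' : ∀ c k, z' = e (c, k) → c ∈ X := by
        rintro c k rfl
        apply hl c ⟨rot, ?_⟩
        have := moved e c k z b
        rwa [Sym2.eq_swap] at this
      have h1 := gr_shift ν β hUn a δ X hδ hs z z' hz hz'
      unfold lit actL
      simp only [Sym2.map_mk, SimpleGraph.mem_edgeSet, h1]

theorem exists_unsat {N M : ℕ} (ν : Fin M → Fin 3 → Fin N) (h : 3 * N < M) :
    ∃ β : Fin M → Fin 3 → ZMod 2, ∀ a : Fin 3 × Fin N → ZMod 2,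
      ∃ c, ∑ i, a (i, ν c i) ≠ ∑ i, β c i := by
  classical
  let Φ : (Fin 3 × Fin N → ZMod 2) → (Fin M → ZMod 2) := fun a c => ∑ i, a (i, ν c i)
  have hns : ¬ Function.Surjective Φ := by
    intro hs
    have := Fintype.card_le_of_surjective Φ hs
    simp only [Fintype.card_fun, Fintype.card_prod, Fintype.card_fin, ZMod.card] at this
    have h2 := (Nat.pow_le_pow_iff_right (by norm_num : 1 < 2)).1 this
    omega
  rw [Function.Surjective] at hns
  push Not at hns
  obtain ⟨b, hb⟩ := hns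
  refine ⟨fun c i => if i = 0 then b c else 0, fun a => ?_⟩
  by_contra hcon
  push Not at hcon
  apply hb a
  funext c
  show ∑ i, a (i, ν c i) = b c
  rw [hcon c]
  simp

/-- The lower bound, with all blocks used. -/
theorem lower_aux (hexp : S_exp) (hloc : S_loc) (hsup : S_sup) :
    ∃ K : ℕ, 0 < K ∧ ∀ (n M s : ℕ) (e : Fin M × Fin 5 ↪ Fin n) (Un : Finset (Fin n))
      (C : Net (Lit n) Bool s), (∀ z ∈ Un, z ∉ Set.range e) → BlockSym e C →
      DecidesClique (M + Un.card) C → M ≤ K * (Nat.log 2 s + 1) := by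
  classical
  obtain ⟨K, hK, hexp⟩ := hexp 3 6 (by norm_num) (by norm_num)
  refine ⟨3600 * K, by positivity, ?_⟩
  intro n M s e Un C hUn hsym hC
  by_contra hcon
  push Not at hcon
  set κ := Nat.log 2 s with hκ
  have hMbig : 3600 * K * (κ + 1) < M := hcon
  have hM4 : 3600 ≤ M := by
    have : 3600 * 1 * 1 ≤ 3600 * K * (κ + 1) :=
      Nat.mul_le_mul (Nat.mul_le_mul_left _ hK) (by omega)
    omega
  set N := (M - 1) / 3 with hN
  have hN0 : 0 < N := by omega
  have h3N : 3 * N < M := by omega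
  have hMN : M ≤ 6 * N := by omega
  set r := 120 * (κ + 1) with hr
  have hKr : K * r ≤ N := by
    have h1 : 3600 * K * (κ + 1) = 30 * (K * r) := by rw [hr]; ring
    omega
  obtain ⟨ν, hν⟩ := hexp N M r hN0 hMN hKr
  obtain ⟨β, hβ⟩ := exists_unsat ν h3N
  have hL := locally_gr hloc (K := 4 * κ) ν hν β e Un hUn (by omega) (by omega)
  have hs : s < 2 ^ (κ + 1) := Nat.lt_pow_succ_log_self (by norm_num) s
  have hX := hsup (Lit n) Bool A5 (commutator_alternatingGroup_eq_top (by simp)) M s κ C (actL e)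
    (actL_one e) (actL_mul e) hsym.act hs
  have heq := core (actL_mul e) hL C κ hsym.act hX le_rfl
  have h1 := (hC (gr ν 0 e Un)).2 (clique_gr ν hUn)
  rw [heq] at h1
  obtain ⟨S, hS⟩ := (hC (gr ν β e Un)).1 h1
  exact no_clique_gr ν β (by omega) hβ S hS

end Pool.Agent.W893.SY
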