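import Mathlib

/-!
# Circuits with symmetries
-/

namespace Pool.Agent.W893.SY

open Finset

/-- A circuit with `s` gates, input variables `I` and values in `R`. A gate either reads an input
variable, or it has a multiset of incoming wires, each wire being a label in `ℕ` together with its
source (an earlier gate), and a gate function `f`; its value is then `f` of the multiset of all
pairs (label of the wire, value at its source). Wires with different labels can be told apart by
the gate, so that every function of finitely many arguments is allowed as a gate function. -/
structure Net (I R : Type) (s : ℕ) where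
  gate : Fin s → I ⊕ (Multiset (ℕ × Fin s) × (Multiset (ℕ × R) → R))
  acyclic : ∀ g w f, gate g = Sum.inr (w, f) → ∀ p ∈ w, p.2 < g
  out : Fin s

namespace Net

variable {I R : Type} {s : ℕ}

/-- The value at the gate `g` on the input `x`. -/
def val (C : Net I R s) (x : I → R) (g : Fin s) : R :=
  match h : C.gate g with
  | Sum.inl i => x i
  | Sum.inr (w, f) => f (w.attach.map fun p => (p.1.1, C.val x p.1.2))
termination_by g
decreasing_by exact C.acyclic g w f h p.1 p.2

/-- `α` is an automorphism of the circuit over the map `σ` of the input variables: it carries
gates reading `i` to gates reading `σ i`, it carries the wires into a gate to the wires into the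
image of that gate (with the same labels), it preserves the gate functions and fixes the output
gate. -/
def IsAut (C : Net I R s) (σ : I → I) (α : Equiv.Perm (Fin s)) : Prop :=
  (∀ g, C.gate (α g) = Sum.map σ (Prod.map (Multiset.map (Prod.map id α)) id) (C.gate g)) ∧
    α C.out = C.out

end Net

/-- The AND of the values on all wires. -/
def andFn (M : Multiset (ℕ × Bool)) : Bool := decide (false ∉ M.map Prod.snd)

/-- The OR of the values on all wires. -/
def orFn (M : Multiset (ℕ × Bool)) : Bool := decide (true ∈ M.map Prod.snd)

/-- All gates that do not read an input variable are AND gates or OR gates (of arbitrary fan-in). -/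
def Net.AndOr {I : Type} {s : ℕ} (C : Net I Bool s) : Prop :=
  ∀ g w f, C.gate g = Sum.inr (w, f) → f = andFn ∨ f = orFn

/-- The literals of graphs with vertex set `Fin n`: a pair of vertices and a sign. -/
abbrev Lit (n : ℕ) : Type := Sym2 (Fin n) × Bool

open Classical in
/-- The value of the literals on a graph: `(e, true)` says that `e` is an edge, `(e, false)` says
that it is not. -/
noncomputable def lit {n : ℕ} (G : SimpleGraph (Fin n)) (l : Lit n) : Bool :=
  decide (l.1 ∈ G.edgeSet ↔ l.2 = true)

/-- The permutation `γ i` acts on the block `i`; blocks are the sets `{e (i, 0), …, e (i, 4)}`. -/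
noncomputable def blockPerm {m n : ℕ} (e : Fin m × Fin 5 ↪ Fin n) (γ : Fin m → Equiv.Perm (Fin 5)) :
    Equiv.Perm (Fin n) :=
  Equiv.Perm.viaEmbedding (Equiv.prodShear (Equiv.refl (Fin m)) γ) e

/-- The circuit is symmetric under all even permutations of the vertices inside the blocks. -/
def BlockSym {m n s : ℕ} (e : Fin m × Fin 5 ↪ Fin n) (C : Net (Lit n) Bool s) : Prop :=
  ∀ γ : Fin m → Equiv.Perm (Fin 5), (∀ i, γ i ∈ alternatingGroup (Fin 5)) →
    ∃ α, C.IsAut (fun l => (l.1.map (blockPerm e γ), l.2)) α

/-- The circuit decides whether a graph with vertex set `Fin n` has a clique with `k` vertices. -/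
def DecidesClique {n s : ℕ} (k : ℕ) (C : Net (Lit n) Bool s) : Prop :=
  ∀ G : SimpleGraph (Fin n), C.val (lit G) C.out = true ↔ ∃ S : Finset (Fin n), G.IsNClique k S

end Pool.Agent.W893.SY
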