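import Pool.Agent.W893.SY.Defs

/-! Values of circuits and automorphisms. -/

namespace Pool.Agent.W893.SY

open Finset

variable {I R : Type} {s : ℕ}

theorem Net.val_inl (C : Net I R s) (x : I → R) {g : Fin s} {i : I} (h : C.gate g = Sum.inl i) :
    C.val x g = x i := by
  rw [Net.val]
  split
  · rename_i j h'
    rw [h] at h'
    rw [Sum.inl.inj h']
  · rename_i w f h'
    rw [h] at h'
    exact absurd h' (by simp)

theorem Net.val_inr (C : Net I R s) (x : I → R) {g : Fin s} {w : Multiset (ℕ × Fin s)}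
    {f : Multiset (ℕ × R) → R} (h : C.gate g = Sum.inr (w, f)) :
    C.val x g = f (w.map fun p => (p.1, C.val x p.2)) := by
  rw [Net.val]
  split
  · rename_i j h'
    rw [h] at h'
    exact absurd h' (by simp)
  · rename_i w' f' h'
    rw [h] at h'
    obtain ⟨rfl, rfl⟩ := Prod.mk.inj (Sum.inr.inj h')
    congr 1
    exact Multiset.attach_map_val' w (fun p => (p.1, C.val x p.2))

theorem Net.val_aut (C : Net I R s) {σ : I → I} {α : Equiv.Perm (Fin s)} (h : C.IsAut σ α)
    (x : I → R) (g : Fin s) : C.val (x ∘ σ) g = C.val x (α g) := by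
  induction g using WellFoundedLT.induction with
  | ind g ih =>
    have hg := h.1 g
    rcases hc : C.gate g with i | ⟨w, f⟩
    · rw [hc] at hg
      rw [C.val_inl _ hc, C.val_inl x (i := σ i) (by rw [hg]; rfl)]
      rfl
    · rw [hc] at hg
      rw [C.val_inr _ hc, C.val_inr x (w := w.map (Prod.map id α)) (f := f) (by rw [hg]; rfl),
        Multiset.map_map]
      congr 1
      apply Multiset.map_congr rfl
      intro p hp
      simp only [Function.comp_apply, Prod.map_fst, Prod.map_snd, id]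
      rw [ih p.2 (C.acyclic g w f hc p hp)]

theorem Net.IsAut.one (C : Net I R s) : C.IsAut id 1 := by
  refine ⟨fun g => ?_, rfl⟩
  rcases hc : C.gate g with i | ⟨w, f⟩
  · simp [hc]
  · simp [hc]

theorem Net.IsAut.mul {C : Net I R s} {σ τ : I → I} {α β : Equiv.Perm (Fin s)}
    (h1 : C.IsAut σ α) (h2 : C.IsAut τ β) : C.IsAut (σ ∘ τ) (α * β) := by
  refine ⟨fun g => ?_, ?_⟩
  · rw [Equiv.Perm.mul_apply, h1.1, h2.1]
    rcases C.gate g with i | ⟨w, f⟩
    · rfl
    · simp only [Sum.map_inr, Prod.map_apply, Multiset.map_map, id]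
      rfl
  · rw [Equiv.Perm.mul_apply, h2.2, h1.2]

theorem Net.IsAut.inv {C : Net I R s} {σ τ : I → I} {α : Equiv.Perm (Fin s)}
    (h1 : C.IsAut σ α) (h : τ ∘ σ = id) : C.IsAut τ α⁻¹ := by
  refine ⟨fun g => ?_, ?_⟩
  · have h2 := h1.1 (α⁻¹ g)
    rw [show α (α⁻¹ g) = g from Equiv.apply_symm_apply α g] at h2
    rw [h2]
    rcases C.gate (α⁻¹ g) with i | ⟨w, f⟩
    · simp only [Sum.map_inl]
      rw [← Function.comp_apply (f := τ), h]
      rfl
    · simp only [Sum.map_inr, Prod.map_apply, Multiset.map_map, id]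
      congr 2
      have : (Prod.map id (⇑α⁻¹) ∘ Prod.map id ⇑α : ℕ × Fin s → ℕ × Fin s) = id := by
        funext p
        exact Prod.ext rfl (Equiv.symm_apply_apply α p.2)
      rw [this, Multiset.map_id]
  · rw [Equiv.Perm.inv_eq_iff_eq, h1.2]

end Pool.Agent.W893.SY
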